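import Pool.Agent.Helper33.PlaceSys

/-!
# Place systems (any characteristic)

Same as `PlaceSys`, without any hypothesis on the characteristic and on the kernel of the derivation.
-/

set_option autoImplicit false

namespace Pool.Agent.Helper33

/-- A place system: an abstract function field of one variable `K` over `k`, any characteristic. -/
structure PSys (k K V : Type*) [Field k] [Field K] [Algebra k K] where
  /-- the valuation attached to a place -/
  pl : V → DV K
  /-- every nonzero element has finitely many zeros and poles -/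
  ord_finite : ∀ x : K, x ≠ 0 → {v : V | (pl v).o x ≠ 0}.Finite
  /-- the product formula -/
  sum_ord : ∀ x : K, x ≠ 0 → ∑ᶠ v, (pl v).o x = 0
  /-- the derivation -/
  D : K → K
  D_add : ∀ x y : K, D (x + y) = D x + D y
  D_mul : ∀ x y : K, D (x * y) = x * D y + y * D x
  /-- the error term -/
  e : V → ℕ
  e_finite : {v : V | e v ≠ 0}.Finite
  ord_D : ∀ (v : V) (x : K), x ≠ 0 → D x ≠ 0 → (pl v).o x - 1 - (e v : ℤ) ≤ (pl v).o (D x)
  ord_D' : ∀ (v : V) (x : K), x ≠ 0 → D x ≠ 0 → 0 ≤ (pl v).o x → -(e v : ℤ) ≤ (pl v).o (D x)
  /-- an element without zeros and poles is constant -/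
  const : ∀ x : K, x ≠ 0 → (∀ v, (pl v).o x = 0) → ∃ c : k, algebraMap k K c = x

/-- forget the characteristic -/
def PlaceSys.toPSys {p : ℕ} {k K V : Type*} [Field k] [Field K] [Algebra k K]
    (P : PlaceSys p k K V) : PSys k K V where
  pl := P.pl
  ord_finite := P.ord_finite
  sum_ord := P.sum_ord
  D := P.D
  D_add := P.D_add
  D_mul := P.D_mul
  e := P.e
  e_finite := P.e_finite
  ord_D := P.ord_D
  ord_D' := P.ord_D'
  const := P.const

end Pool.Agent.Helper33
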